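import Mathlib
import Pool.Agent.H10.WqoDefs
import Pool.Agent.H10.Wqo

set_option autoImplicit false

namespace Pool.Agent.Results.MP_708b53_co.NotWqo

open Pool.Agent.H10.Wqo in
/-- An infinite antichain of configurations with no six points in convex position. -/
theorem result : ∃ S : ℕ → Finset E, (∀ i, ∀ X ⊆ S i, ConvexPos X → X.card < 6) ∧
    ∀ i j, i ≠ j → ¬ SubConf (S i) (S j) :=
  ⟨fun i => S (i + 5), fun i X hX h => no_six _ X hX h,
    fun i j ij h => ij (by have := anti _ _ (by omega) (by omega) h; omega)⟩

end Pool.Agent.Results.MP_708b53_co.NotWqo
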